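import Mathlib
import Pool.Agent.helper1.SF.SpecA

/-!
Project SF (MP_d52931_gt), block sa, module JTW: truncation of the cone function.
-/

set_option autoImplicit false

namespace SF

open MeasureTheory Set

/-- the integrand -/
noncomputable def JTW_F (f : ℝ → ℝ → ℝ) (l l' y : ℝ) : ℝ :=
  1 / √(qq l l' y) * f (-(1 / 2) * Real.log (qq l l' y)) y

theorem JTW_inv {f f' : ℝ → ℝ → ℝ} {B : ℝ} (hf : FD f f' B) (l l' : ℝ) {y : ℝ} (hy : 0 < y) :
    JTW_F f l l' y⁻¹ = -y ^ 2 * JTW_F f l' l y := by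
  have h1 : qq l l' y⁻¹ = qq l' l y := by
    unfold qq
    field_simp
    ring
  unfold JTW_F
  rw [h1, ← one_div, hf.sym _ y hy]
  ring

theorem JTW_split {f f' : ℝ → ℝ → ℝ} {B : ℝ} (hf : FD f f' B) (l l' : ℝ)
    (h1 : IntegrableOn (JTW_F f l l') (Ioi 0)) :
    ∫ y in Ioi (0 : ℝ), JTW_F f l l' y =
      (∫ y in Ioc (0 : ℝ) 1, JTW_F f l l' y) - ∫ y in Ioc (0 : ℝ) 1, JTW_F f l' l y := by
  have hun : Ioc (0 : ℝ) 1 ∪ Ioi 1 = Ioi 0 := Ioc_union_Ioi_eq_Ioi (by norm_num)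
  have hsub1 : Ioc (0 : ℝ) 1 ⊆ Ioi 0 := fun x hx => hx.1
  have hsub2 : Ioi (1 : ℝ) ⊆ Ioi 0 := fun x (hx : 1 < x) => (show (0 : ℝ) < x by linarith)
  have hdis : Disjoint (Ioc (0 : ℝ) 1) (Ioi 1) := by
    rw [Set.disjoint_left]
    intro x hx hx2
    exact absurd hx.2 (not_le.2 hx2)
  have e1 : ∫ y in Ioi (0 : ℝ), JTW_F f l l' y =
      (∫ y in Ioc (0 : ℝ) 1, JTW_F f l l' y) + ∫ y in Ioi (1 : ℝ), JTW_F f l l' y := by
    rw [← hun]
    exact setIntegral_union hdis measurableSet_Ioi (h1.mono_set hsub1) (h1.mono_set hsub2)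
  have e2 : ∫ y in Ioi (1 : ℝ), JTW_F f l l' y =
      ∫ y in Ioi (0 : ℝ), (Ioi (1 : ℝ)).indicator (JTW_F f l l') y := by
    rw [setIntegral_indicator measurableSet_Ioi]
    have : Ioi (0 : ℝ) ∩ Ioi 1 = Ioi 1 := inter_eq_self_of_subset_right hsub2
    rw [this]
  have e3 : ∫ y in Ioi (0 : ℝ), (Ioi (1 : ℝ)).indicator (JTW_F f l l') y =
      ∫ y in Ioi (0 : ℝ), (Iio (1 : ℝ)).indicator (fun y => -JTW_F f l' l y) y := by
    rw [← integral_comp_rpow_Ioi ((Ioi (1 : ℝ)).indicator (JTW_F f l l'))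
      (show (-1 : ℝ) ≠ 0 by norm_num)]
    refine setIntegral_congr_fun measurableSet_Ioi ?_
    intro y hy
    have hy' : 0 < y := hy
    simp only
    have p1 : y ^ (-1 : ℝ) = y⁻¹ := Real.rpow_neg_one y
    have p2 : y ^ ((-1 : ℝ) - 1) = (y ^ 2)⁻¹ := by
      rw [show ((-1 : ℝ) - 1) = -((2 : ℕ) : ℝ) by norm_num, Real.rpow_neg hy'.le,
        Real.rpow_natCast]
    rw [p1, p2, abs_neg, abs_one, one_mul, smul_eq_mul]
    by_cases hy1 : y < 1
    · have m1 : y⁻¹ ∈ Ioi (1 : ℝ) := by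
        show 1 < y⁻¹
        rw [one_lt_inv₀ hy']
        exact hy1
      have m2 : y ∈ Iio (1 : ℝ) := hy1
      rw [indicator_of_mem m1, indicator_of_mem m2, JTW_inv hf l l' hy']
      field_simp
    · have m1 : y⁻¹ ∉ Ioi (1 : ℝ) := by
        intro h
        have h2 : 1 < y⁻¹ := h
        rw [one_lt_inv₀ hy'] at h2
        exact hy1 h2
      have m2 : y ∉ Iio (1 : ℝ) := hy1
      rw [indicator_of_notMem m1, indicator_of_notMem m2, mul_zero]
  have e4 : ∫ y in Ioi (0 : ℝ), (Iio (1 : ℝ)).indicator (fun y => -JTW_F f l' l y) y =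
      -∫ y in Ioc (0 : ℝ) 1, JTW_F f l' l y := by
    rw [setIntegral_indicator measurableSet_Iio, Ioi_inter_Iio, integral_neg,
      integral_Ioc_eq_integral_Ioo]
  rw [e1, e2, e3, e4]
  ring

theorem JTW_bound {f f' : ℝ → ℝ → ℝ} {B : ℝ} (hf : FD f f' B) (l l' y0 : ℝ) (hl : 1 ≤ l)
    (hy0 : 0 < y0) :
    |∫ y in Ioc (0 : ℝ) y0, JTW_F f l l' y| ≤ 2 * B * √y0 := by
  have hint : IntervalIntegrable (fun y : ℝ => B * y ^ (-(1 / 2) : ℝ)) volume 0 y0 :=
    (intervalIntegral.intervalIntegrable_rpow' (by norm_num)).const_mul B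
  have hint2 : Integrable (fun y : ℝ => B * y ^ (-(1 / 2) : ℝ)) (volume.restrict (Ioc 0 y0)) :=
    (intervalIntegrable_iff_integrableOn_Ioc_of_le hy0.le).1 hint
  have hb : ∀ᵐ y ∂(volume.restrict (Ioc (0 : ℝ) y0)), ‖JTW_F f l l' y‖ ≤
      B * y ^ (-(1 / 2) : ℝ) := by
    rw [ae_restrict_iff' measurableSet_Ioc]
    refine Filter.Eventually.of_forall ?_
    intro y hy
    have hy' : 0 < y := hy.1
    have hq : 1 / y ≤ qq l l' y := by
      unfold qq
      have h1 : 1 / y ≤ l ^ 2 / y := by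
        apply div_le_div_of_nonneg_right _ hy'.le
        nlinarith
      have h2 : 0 ≤ y * l' ^ 2 := by positivity
      linarith
    have hq0 : 0 < 1 / y := by positivity
    have hsq : √(1 / y) ≤ √(qq l l' y) := Real.sqrt_le_sqrt hq
    have hs0 : 0 < √(1 / y) := Real.sqrt_pos.2 hq0
    have h3 : 1 / √(qq l l' y) ≤ √y := by
      have h4 : 1 / √(qq l l' y) ≤ 1 / √(1 / y) := one_div_le_one_div_of_le hs0 hsq
      have h5 : 1 / √(1 / y) = √y := by
        rw [one_div y, Real.sqrt_inv, one_div, inv_inv]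
      rw [h5] at h4
      exact h4
    have hfb := hf.bd (-(1 / 2) * Real.log (qq l l' y)) y hy'
    have hn : 0 ≤ 1 / √(qq l l' y) := by positivity
    unfold JTW_F
    rw [Real.norm_eq_abs, abs_mul, abs_of_nonneg hn]
    have hB : 0 ≤ B / y := (abs_nonneg _).trans hfb
    calc 1 / √(qq l l' y) * |f (-(1 / 2) * Real.log (qq l l' y)) y| ≤ √y * (B / y) :=
          mul_le_mul h3 hfb (abs_nonneg _) (Real.sqrt_nonneg _)
      _ = B * (√y / y) := by ring
      _ = B * y ^ (-(1 / 2) : ℝ) := by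
          rw [Real.sqrt_div_self', Real.rpow_neg hy'.le, ← Real.sqrt_eq_rpow, one_div]
  have h := norm_integral_le_of_norm_le hint2 hb
  rw [Real.norm_eq_abs] at h
  refine h.trans (le_of_eq ?_)
  rw [← intervalIntegral.integral_of_le hy0.le, intervalIntegral.integral_const_mul,
    integral_rpow (Or.inl (by norm_num))]
  have h0 : (0 : ℝ) ^ (-(1 / 2) + 1 : ℝ) = 0 := Real.zero_rpow (by norm_num)
  rw [h0, show (-(1 / 2) + 1 : ℝ) = 1 / 2 by norm_num, ← Real.sqrt_eq_rpow]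
  ring

theorem JTW (hJ : JFD_stmt) (h1 : J1_stmt) : JTW_stmt := by
  obtain ⟨C, hC, hFD⟩ := hJ
  refine ⟨2 * C, by positivity, ?_⟩
  intro g B l l' y0 hg hB hl hl' hy0 hy1
  have hf := hFD g B hg hB
  set f : ℝ → ℝ → ℝ := fun s y => dX (ww g) s 0 y with hfdef
  have i1 : IntegrableOn (JTW_F f l l') (Ioi 0) :=
    (h1 f _ (C * B) l l' hf (by linarith) (by linarith)).1
  have i2 : IntegrableOn (JTW_F f l' l) (Ioi 0) :=
    (h1 f _ (C * B) l' l hf (by linarith) (by linarith)).1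
  have hs := JTW_split hf l l' i1
  have hjj : jj g l l' = 1 / 2 * ∫ y in Ioi (0 : ℝ), JTW_F f l l' y := rfl
  have hsub1 : Ioc (0 : ℝ) y0 ⊆ Ioi 0 := fun x hx => hx.1
  have hsub2 : Ioc y0 (1 : ℝ) ⊆ Ioi 0 := fun x hx => hy0.trans hx.1
  have hun : Ioc (0 : ℝ) y0 ∪ Ioc y0 1 = Ioc 0 1 := Ioc_union_Ioc_eq_Ioc hy0.le hy1
  have hdis : Disjoint (Ioc (0 : ℝ) y0) (Ioc y0 1) := by
    rw [Set.disjoint_left]
    intro x hx hx2
    exact absurd hx.2 (not_le.2 hx2.1)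
  have hcut : ∀ a b : ℝ, IntegrableOn (JTW_F f a b) (Ioi 0) →
      ∫ y in Ioc (0 : ℝ) 1, JTW_F f a b y =
        (∫ y in Ioc (0 : ℝ) y0, JTW_F f a b y) + ∫ y in Ioc y0 1, JTW_F f a b y := by
    intro a b hab
    rw [← hun]
    exact setIntegral_union hdis measurableSet_Ioc (hab.mono_set hsub1) (hab.mono_set hsub2)
  have hjh : ∀ a b : ℝ, jh g y0 a b = 1 / 2 * ∫ y in Ioc y0 1, JTW_F f a b y := by
    intro a b
    unfold jh
    rw [intervalIntegral.integral_of_le hy1]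
    rfl
  have b1 := JTW_bound hf l l' y0 hl hy0
  have b2 := JTW_bound hf l' l y0 hl' hy0
  rw [hjj, hs, hcut l l' i1, hcut l' l i2, hjh, hjh]
  rw [abs_le] at b1 b2 ⊢
  constructor
  · linarith [b1.1, b2.2]
  · linarith [b1.2, b2.1]

end SF
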