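import Mathlib
import Pool.Agent.helper68.SF.SpecW

/-!
Project SF (MP_d52931_gt), block sw, module KC: the blocks of the sum `ℛ` form a family of the class `Cl`.
-/

set_option autoImplicit false

namespace SF

open scoped ContDiff

/-- the kernel in the variable `ϑ = 1 / x` -/
noncomputable def KC_H (g : ℝ → ℝ) (p : ℝ × ℝ × ℝ) : ℝ :=
  √p.2.2 / (5 * Real.pi) * p.2.1 * (1 / √(1 + p.2.1 ^ 2 * p.2.2 ^ 2)) *
    NN g (Real.exp (2 * p.1) / (25 * p.2.2)) (1 / √(1 + p.2.1 ^ 2 * p.2.2 ^ 2))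

theorem KC_H_smooth (hNS : NS_stmt) (g : ℝ → ℝ) (hg : Prof g) : ContDiffOn ℝ ∞ (KC_H g) HH := by
  have hy : ∀ p ∈ HH, 0 < p.2.2 := fun p hp => hp
  have hpos : ∀ p : ℝ × ℝ × ℝ, 0 < 1 + p.2.1 ^ 2 * p.2.2 ^ 2 := fun p => by positivity
  have h1 : ContDiffOn ℝ ∞ (fun p : ℝ × ℝ × ℝ => √p.2.2) HH :=
    (contDiff_snd.comp contDiff_snd).contDiffOn.sqrt (fun p hp => (hy p hp).ne')
  have h2 : ContDiffOn ℝ ∞ (fun p : ℝ × ℝ × ℝ => 1 / √(1 + p.2.1 ^ 2 * p.2.2 ^ 2)) HH := by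
    have ha : ContDiff ℝ ∞ (fun p : ℝ × ℝ × ℝ => 1 + p.2.1 ^ 2 * p.2.2 ^ 2) := by fun_prop
    refine contDiffOn_const.div (ha.contDiffOn.sqrt (fun p _ => (hpos p).ne')) ?_
    intro p _
    exact (Real.sqrt_pos.2 (hpos p)).ne'
  have h3 : ContDiffOn ℝ ∞ (fun p : ℝ × ℝ × ℝ => Real.exp (2 * p.1) / (25 * p.2.2)) HH := by
    refine ContDiffOn.div ?_ ?_ ?_
    · exact (by fun_prop : ContDiff ℝ ∞ (fun p : ℝ × ℝ × ℝ => Real.exp (2 * p.1))).contDiffOn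
    · exact (by fun_prop : ContDiff ℝ ∞ (fun p : ℝ × ℝ × ℝ => 25 * p.2.2)).contDiffOn
    · intro p hp
      exact (mul_pos (by norm_num) (hy p hp)).ne'
  have h4 : ContDiffOn ℝ ∞ (fun p : ℝ × ℝ × ℝ =>
      NN g (Real.exp (2 * p.1) / (25 * p.2.2)) (1 / √(1 + p.2.1 ^ 2 * p.2.2 ^ 2))) HH := by
    have := (hNS g hg).comp (h3.prodMk h2) (fun p hp => by
      have := hy p hp
      show 0 < Real.exp (2 * p.1) / (25 * p.2.2)
      positivity)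
    exact this
  have h5 : ContDiffOn ℝ ∞ (fun p : ℝ × ℝ × ℝ => p.2.1) HH :=
    (contDiff_fst.comp contDiff_snd).contDiffOn
  exact (((h1.div_const _).mul h5).mul h2).mul h4

theorem KC_k1_smooth (hNS : NS_stmt) (g : ℝ → ℝ) (hg : Prof g) (a : ℝ) :
    ContDiffOn ℝ ∞ (fun p : ℝ × ℝ × ℝ => k1 g p.1 (p.2.1 + a) p.2.2) HH := by
  have hy : ∀ p ∈ HH, 0 < p.2.2 := fun p hp => hp
  have hpos : ∀ p ∈ HH, 0 < (p.2.1 + a) ^ 2 + p.2.2 ^ 2 := fun p hp => by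
    have := hy p hp
    positivity
  have h1 : ContDiffOn ℝ ∞ (fun p : ℝ × ℝ × ℝ => √p.2.2) HH :=
    (contDiff_snd.comp contDiff_snd).contDiffOn.sqrt (fun p hp => (hy p hp).ne')
  have ha : ContDiff ℝ ∞ (fun p : ℝ × ℝ × ℝ => (p.2.1 + a) ^ 2 + p.2.2 ^ 2) := by fun_prop
  have h2 : ContDiffOn ℝ ∞ (fun p : ℝ × ℝ × ℝ => √((p.2.1 + a) ^ 2 + p.2.2 ^ 2)) HH :=
    ha.contDiffOn.sqrt (fun p hp => (hpos p hp).ne')
  have h2' : ∀ p ∈ HH, √((p.2.1 + a) ^ 2 + p.2.2 ^ 2) ≠ 0 := fun p hp =>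
    (Real.sqrt_pos.2 (hpos p hp)).ne'
  have h3 : ContDiffOn ℝ ∞ (fun p : ℝ × ℝ × ℝ => Real.exp (2 * p.1) / (25 * p.2.2)) HH := by
    refine ContDiffOn.div ?_ ?_ ?_
    · exact (by fun_prop : ContDiff ℝ ∞ (fun p : ℝ × ℝ × ℝ => Real.exp (2 * p.1))).contDiffOn
    · exact (by fun_prop : ContDiff ℝ ∞ (fun p : ℝ × ℝ × ℝ => 25 * p.2.2)).contDiffOn
    · intro p hp
      exact (mul_pos (by norm_num) (hy p hp)).ne'
  have h5 : ContDiffOn ℝ ∞ (fun p : ℝ × ℝ × ℝ => p.2.1 + a) HH :=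
    (by fun_prop : ContDiff ℝ ∞ (fun p : ℝ × ℝ × ℝ => p.2.1 + a)).contDiffOn
  have h4 : ContDiffOn ℝ ∞ (fun p : ℝ × ℝ × ℝ =>
      NN g (Real.exp (2 * p.1) / (25 * p.2.2))
        ((p.2.1 + a) / √((p.2.1 + a) ^ 2 + p.2.2 ^ 2))) HH := by
    have := (hNS g hg).comp (h3.prodMk (h5.div h2 h2')) (fun p hp => by
      have := hy p hp
      show 0 < Real.exp (2 * p.1) / (25 * p.2.2)
      positivity)
    exact this
  have h6 : ContDiffOn ℝ ∞ (fun p : ℝ × ℝ × ℝ =>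
      √p.2.2 / (5 * Real.pi * √((p.2.1 + a) ^ 2 + p.2.2 ^ 2))) HH := by
    refine h1.div (contDiffOn_const.mul h2) ?_
    intro p hp
    exact mul_ne_zero (by positivity) (h2' p hp)
  exact h6.mul h4

theorem KC_b1_smooth (g : ℝ → ℝ) (hg : Prof g) (a : ℝ) :
    ContDiffOn ℝ ∞ (fun p : ℝ × ℝ × ℝ => b1 g p.1 (p.2.1 + a) p.2.2) HH := by
  have hy : ∀ p ∈ HH, 0 < p.2.2 := fun p hp => hp
  have hpos : ∀ p ∈ HH, 0 < (p.2.1 + a) ^ 2 + p.2.2 ^ 2 := fun p hp => by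
    have := hy p hp
    positivity
  have h1 : ContDiffOn ℝ ∞ (fun p : ℝ × ℝ × ℝ => √p.2.2) HH :=
    (contDiff_snd.comp contDiff_snd).contDiffOn.sqrt (fun p hp => (hy p hp).ne')
  have ha : ContDiff ℝ ∞ (fun p : ℝ × ℝ × ℝ => (p.2.1 + a) ^ 2 + p.2.2 ^ 2) := by fun_prop
  have h2 : ContDiffOn ℝ ∞ (fun p : ℝ × ℝ × ℝ => √((p.2.1 + a) ^ 2 + p.2.2 ^ 2)) HH :=
    ha.contDiffOn.sqrt (fun p hp => (hpos p hp).ne')
  have h2' : ∀ p ∈ HH, √((p.2.1 + a) ^ 2 + p.2.2 ^ 2) ≠ 0 := fun p hp =>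
    (Real.sqrt_pos.2 (hpos p hp)).ne'
  have h6 : ContDiffOn ℝ ∞ (fun p : ℝ × ℝ × ℝ =>
      √p.2.2 / (5 * √((p.2.1 + a) ^ 2 + p.2.2 ^ 2))) HH := by
    refine h1.div (contDiffOn_const.mul h2) ?_
    intro p hp
    exact mul_ne_zero (by norm_num) (h2' p hp)
  have h3 : ContDiffOn ℝ ∞ (fun p : ℝ × ℝ × ℝ =>
      Real.exp (2 * p.1) * p.2.2 / (25 * ((p.2.1 + a) ^ 2 + p.2.2 ^ 2))) HH := by
    refine ContDiffOn.div ?_ ?_ ?_
    · exact (by fun_prop : ContDiff ℝ ∞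
        (fun p : ℝ × ℝ × ℝ => Real.exp (2 * p.1) * p.2.2)).contDiffOn
    · exact (by fun_prop : ContDiff ℝ ∞
        (fun p : ℝ × ℝ × ℝ => 25 * ((p.2.1 + a) ^ 2 + p.2.2 ^ 2))).contDiffOn
    · intro p hp
      exact (mul_pos (by norm_num) (hpos p hp)).ne'
  have h4 : ContDiffOn ℝ ∞ (fun p : ℝ × ℝ × ℝ =>
      g (Real.exp (2 * p.1) * p.2.2 / (25 * ((p.2.1 + a) ^ 2 + p.2.2 ^ 2)))) HH :=
    hg.smooth.comp_contDiffOn h3
  exact h6.mul h4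

theorem KC_block_smooth (hNS : NS_stmt) (g : ℝ → ℝ) (hg : Prof g) (x0 : ℝ) (k : ℤ) :
    ContDiffOn ℝ ∞ (fun p : ℝ × ℝ × ℝ => Bk g p.1 p.2.1 p.2.2 x0 k) HH := by
  have h : ∀ r : ℝ, ContDiffOn ℝ ∞ (fun p : ℝ × ℝ × ℝ => k1 g p.1 (p.2.1 + k + r) p.2.2 +
      1 / 2 * Real.sign (x0 + k + r) * b1 g p.1 (p.2.1 + k + r) p.2.2) HH := by
    intro r
    have h1 := KC_k1_smooth hNS g hg ((k : ℝ) + r)
    have h2 := KC_b1_smooth g hg ((k : ℝ) + r)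
    have h3 := h1.add ((contDiffOn_const (c := 1 / 2 * Real.sign (x0 + k + r))).mul h2)
    refine h3.congr ?_
    intro p _
    show _ = k1 g p.1 (p.2.1 + ((k : ℝ) + r)) p.2.2 + 1 / 2 * Real.sign (x0 + k + r) *
      b1 g p.1 (p.2.1 + ((k : ℝ) + r)) p.2.2
    rw [← add_assoc]
  exact (((h (1 / 5)).sub (h (2 / 5))).sub (h (3 / 5))).add (h (4 / 5))

/-- the kernel for `x ≠ 0` in the variable `1 / x` -/
theorem KC_k1_eq (hNO : NO_stmt) (g : ℝ → ℝ) (s x y : ℝ) (hx : x ≠ 0) (hy : 0 < y) :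
    k1 g s x y = KC_H g (s, 1 / x, y) := by
  have hpi := Real.pi_pos
  have hq : 0 < 1 + (1 / x) ^ 2 * y ^ 2 := by positivity
  have hsq : √(x ^ 2 + y ^ 2) = |x| * √(1 + (1 / x) ^ 2 * y ^ 2) := by
    rw [← Real.sqrt_sq_eq_abs, ← Real.sqrt_mul (sq_nonneg x)]
    congr 1
    field_simp
  have hs := Real.sqrt_pos.2 hq
  unfold k1 KC_H
  simp only
  rw [hsq]
  rcases lt_or_gt_of_ne hx with h | h
  · rw [abs_of_neg h]
    have e : x / (-x * √(1 + (1 / x) ^ 2 * y ^ 2)) = -(1 / √(1 + (1 / x) ^ 2 * y ^ 2)) := by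
      field_simp
    rw [e, hNO]
    field_simp
  · rw [abs_of_pos h]
    have e : x / (x * √(1 + (1 / x) ^ 2 * y ^ 2)) = 1 / √(1 + (1 / x) ^ 2 * y ^ 2) := by
      field_simp
    rw [e]
    field_simp

/-- `β₁` vanishes far away -/
theorem KC_b1_zero (g : ℝ → ℝ) (hg : Prof g) (s x y : ℝ) (hy : 0 < y)
    (h : Real.exp (2 * s) * y ≤ 25 * x ^ 2) : b1 g s x y = 0 := by
  unfold b1
  rw [hg.lo, mul_zero]
  rw [div_le_one (by positivity)]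
  nlinarith [sq_nonneg y]

/-- the change of variable `τ ↦ τ / (1 + τ a)` -/
theorem KC_theta (a : ℝ) : HasDerivAt (fun τ : ℝ => τ / (1 + τ * a)) 1 0 := by
  have h1 : HasDerivAt (fun τ : ℝ => τ) 1 0 := hasDerivAt_id 0
  have h2 : HasDerivAt (fun τ : ℝ => 1 + τ * a) a 0 := by
    simpa using ((hasDerivAt_id (0 : ℝ)).mul_const a).const_add 1
  have h3 : HasDerivAt (fun τ : ℝ => τ / (1 + τ * a))
      ((1 * (1 + 0 * a) - 0 * a) / (1 + 0 * a) ^ 2) 0 := h1.fun_div h2 (by norm_num)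
  have h4 : ((1 * (1 + 0 * a) - 0 * a) / (1 + 0 * a) ^ 2 : ℝ) = 1 := by norm_num
  rw [h4] at h3
  exact h3

theorem KC_H_deriv (hNS : NS_stmt) (g : ℝ → ℝ) (hg : Prof g) (s y : ℝ) (hy : 0 < y) :
    ∃ D : ℝ, HasDerivAt (fun t : ℝ => KC_H g (s, t, y)) D 0 := by
  have hopen : IsOpen HH := isOpen_lt continuous_const (continuous_snd.comp continuous_snd)
  have hmem : ((s, 0, y) : ℝ × ℝ × ℝ) ∈ HH := hy
  have h1 : DifferentiableAt ℝ (KC_H g) (s, 0, y) :=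
    ((KC_H_smooth hNS g hg).contDiffAt (hopen.mem_nhds hmem)).differentiableAt (by simp)
  have h2 : DifferentiableAt ℝ (fun t : ℝ => ((s, t, y) : ℝ × ℝ × ℝ)) 0 := by fun_prop
  have h3 : DifferentiableAt ℝ (fun t : ℝ => KC_H g (s, t, y)) 0 :=
    DifferentiableAt.comp (g := KC_H g) (0 : ℝ) h1 h2
  exact ⟨_, h3.hasDerivAt⟩

theorem KC (hNS : NS_stmt) (hNO : NO_stmt) (hHAD : HAD_stmt) : KC_stmt := by
  intro g hg x0
  refine ⟨fun k => KC_block_smooth hNS g hg x0 k, ?_⟩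
  intro p0 hp0
  obtain ⟨s0, a0, y0⟩ := p0
  have hy0 : 0 < y0 := hp0
  -- the neighbourhood
  set V : Set (ℝ × ℝ × ℝ) := {p | p.1 < s0 + 1 ∧ |p.2.1 - a0| < 1 ∧ 0 < p.2.2 ∧ p.2.2 < 2 * y0}
    with hV
  have hVo : IsOpen V := by
    have h1 : IsOpen {p : ℝ × ℝ × ℝ | p.1 < s0 + 1} := isOpen_lt continuous_fst continuous_const
    have h2 : IsOpen {p : ℝ × ℝ × ℝ | |p.2.1 - a0| < 1} :=
      isOpen_lt (by fun_prop) continuous_const
    have h3 : IsOpen {p : ℝ × ℝ × ℝ | 0 < p.2.2} := isOpen_lt continuous_const (by fun_prop)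
    have h4 : IsOpen {p : ℝ × ℝ × ℝ | p.2.2 < 2 * y0} := isOpen_lt (by fun_prop) continuous_const
    exact h1.inter (h2.inter (h3.inter h4))
  have hp0V : ((s0, a0, y0) : ℝ × ℝ × ℝ) ∈ V := by
    refine ⟨by simp, by simp, hy0, ?_⟩
    show y0 < 2 * y0
    linarith
  have hVH : V ⊆ HH := fun p hp => hp.2.2.1
  -- bound for `|x + r|`
  set R : ℝ := |a0| + 2 with hR
  have hRpos : 0 < R := by positivity
  have hxr : ∀ p ∈ V, ∀ r : ℝ, 0 ≤ r → r ≤ 1 → |p.2.1 + r| ≤ R := by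
    intro p hp r h0 h1
    have h2 : |p.2.1 - a0| < 1 := hp.2.1
    have h3 : |p.2.1 + r| ≤ |p.2.1 - a0| + |a0| + |r| := by
      calc |p.2.1 + r| = |(p.2.1 - a0) + a0 + r| := by ring_nf
        _ ≤ |(p.2.1 - a0) + a0| + |r| := abs_add_le _ _
        _ ≤ |p.2.1 - a0| + |a0| + |r| := by
          have := abs_add_le (p.2.1 - a0) a0
          linarith
    have h4 : |r| ≤ 1 := by rw [abs_of_nonneg h0]; exact h1
    linarith
  set δ : ℝ := 1 / (2 * R) with hδ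
  have hδpos : 0 < δ := by positivity
  have hne : ∀ τ ∈ Set.Ioo (-δ) δ, ∀ p ∈ V, ∀ r : ℝ, 0 ≤ r → r ≤ 1 →
      1 + τ * (p.2.1 + r) ≠ 0 := by
    intro τ hτ p hp r h0 h1
    have h2 := hxr p hp r h0 h1
    have h3 : |τ| < δ := abs_lt.2 hτ
    have h4 : |τ * (p.2.1 + r)| ≤ 1 / 2 := by
      rw [abs_mul]
      calc |τ| * |p.2.1 + r| ≤ δ * R := mul_le_mul h3.le h2 (abs_nonneg _) hδpos.le
        _ = 1 / 2 := by rw [hδ]; field_simp
    have h5 := (abs_le.1 h4).1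
    intro h6
    linarith
  -- the function
  set T : ℝ → ℝ × (ℝ × ℝ × ℝ) → ℝ := fun r q =>
    KC_H g (q.2.1, q.1 / (1 + q.1 * (q.2.2.1 + r)), q.2.2.2) with hT
  have hTs : ∀ r : ℝ, 0 ≤ r → r ≤ 1 → ContDiffOn ℝ ∞ (T r) (Set.Ioo (-δ) δ ×ˢ V) := by
    intro r h0 h1
    have ha : ContDiffOn ℝ ∞ (fun q : ℝ × (ℝ × ℝ × ℝ) => q.1 / (1 + q.1 * (q.2.2.1 + r)))
        (Set.Ioo (-δ) δ ×ˢ V) := by
      refine ContDiffOn.div ?_ ?_ ?_
      · exact contDiff_fst.contDiffOn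
      · exact (by fun_prop : ContDiff ℝ ∞
          (fun q : ℝ × (ℝ × ℝ × ℝ) => 1 + q.1 * (q.2.2.1 + r))).contDiffOn
      · intro q hq
        exact hne q.1 hq.1 q.2 hq.2 r h0 h1
    have hb : ContDiffOn ℝ ∞ (fun q : ℝ × (ℝ × ℝ × ℝ) => q.2.1) (Set.Ioo (-δ) δ ×ˢ V) :=
      (by fun_prop : ContDiff ℝ ∞ (fun q : ℝ × (ℝ × ℝ × ℝ) => q.2.1)).contDiffOn
    have hc : ContDiffOn ℝ ∞ (fun q : ℝ × (ℝ × ℝ × ℝ) => q.2.2.2) (Set.Ioo (-δ) δ ×ˢ V) :=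
      (by fun_prop : ContDiff ℝ ∞ (fun q : ℝ × (ℝ × ℝ × ℝ) => q.2.2.2)).contDiffOn
    exact (KC_H_smooth hNS g hg).comp (hb.prodMk (ha.prodMk hc))
      (fun q hq => (show 0 < q.2.2.2 from hVH hq.2))
  set M : ℝ × (ℝ × ℝ × ℝ) → ℝ := fun q => T (1 / 5) q - T (2 / 5) q - T (3 / 5) q + T (4 / 5) q
    with hM
  have hMs : ContDiffOn ℝ ∞ M (Set.Ioo (-δ) δ ×ˢ V) :=
    (((hTs (1 / 5) (by norm_num) (by norm_num)).sub
      (hTs (2 / 5) (by norm_num) (by norm_num))).sub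
      (hTs (3 / 5) (by norm_num) (by norm_num))).add
      (hTs (4 / 5) (by norm_num) (by norm_num))
  have hM0 : ∀ p ∈ V, M (0, p) = 0 := by
    intro p _
    simp only [hM, hT]
    norm_num
  have hM1 : ∀ p ∈ V, deriv (fun τ => M (τ, p)) 0 = 0 := by
    intro p hp
    obtain ⟨D, hD⟩ := KC_H_deriv hNS g hg p.1 p.2.2 (hVH hp)
    have hr : ∀ r : ℝ, HasDerivAt (fun τ : ℝ => T r (τ, p)) D 0 := by
      intro r
      have h1 := KC_theta (p.2.1 + r)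
      have h0 : (fun τ : ℝ => τ / (1 + τ * (p.2.1 + r))) 0 = 0 := by simp
      have hD' : HasDerivAt (fun t : ℝ => KC_H g (p.1, t, p.2.2)) D
          ((fun τ : ℝ => τ / (1 + τ * (p.2.1 + r))) 0) := by
        rw [h0]
        exact hD
      have h2 := hD'.comp (0 : ℝ) h1
      rw [mul_one] at h2
      exact h2
    have h := (((hr (1 / 5)).sub (hr (2 / 5))).sub (hr (3 / 5))).add (hr (4 / 5))
    have h' : HasDerivAt (fun τ => M (τ, p)) (D - D - D + D) 0 := h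
    rw [h'.deriv]
    ring
  obtain ⟨G, hG, hGM⟩ := hHAD δ V M hδpos hVo hMs hM0 hM1
  -- the threshold
  set E : ℝ := Real.exp (2 * (s0 + 1)) * (2 * y0) with hE
  have hEpos : 0 < E := by positivity
  obtain ⟨n, hn⟩ := exists_nat_gt (2 * R + E + 1)
  have hn1 : (1 : ℝ) ≤ n := by linarith
  have hn1' : (1 : ℤ) ≤ (n : ℤ) := by exact_mod_cast hn1
  refine ⟨V, δ, (n : ℤ), G, hVo, hp0V, hVH, hδpos, hn1', ?_, hG, ?_⟩
  · have h1 : (0 : ℝ) < n := by linarith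
    rw [Int.cast_natCast, hδ]
    exact one_div_lt_one_div_of_lt (by positivity) (by linarith)
  · intro k hk p hp
    have hkR : (n : ℝ) ≤ |(k : ℝ)| := by
      have : ((n : ℤ) : ℝ) ≤ ((|k| : ℤ) : ℝ) := by exact_mod_cast hk
      rw [Int.cast_abs, Int.cast_natCast] at this
      exact this
    have hkpos : 0 < |(k : ℝ)| := by linarith
    have hk0 : (k : ℝ) ≠ 0 := abs_pos.1 hkpos
    have hτ : (1 / (k : ℝ)) ∈ Set.Ioo (-δ) δ := by
      rw [Set.mem_Ioo, ← abs_lt, abs_div, abs_one, hδ]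
      exact one_div_lt_one_div_of_lt (by positivity) (by linarith)
    have hyp : 0 < p.2.2 := hVH hp
    have key : ∀ r : ℝ, 0 ≤ r → r ≤ 1 →
        k1 g p.1 (p.2.1 + k + r) p.2.2 +
          1 / 2 * Real.sign (x0 + k + r) * b1 g p.1 (p.2.1 + k + r) p.2.2 =
        T r (1 / (k : ℝ), p) := by
      intro r h0 h1
      have h2 := hxr p hp r h0 h1
      have habs : |(k : ℝ)| - R ≤ |p.2.1 + k + r| := by
        have h3 : |(k : ℝ)| ≤ |p.2.1 + k + r| + |p.2.1 + r| := by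
          calc |(k : ℝ)| = |(p.2.1 + k + r) - (p.2.1 + r)| := by ring_nf
            _ ≤ |p.2.1 + k + r| + |p.2.1 + r| := abs_sub _ _
        linarith
      have hge : E + 1 + R < |p.2.1 + k + r| := by linarith
      have hx : p.2.1 + k + r ≠ 0 := by
        intro h
        rw [h, abs_zero] at hge
        linarith
      have hexp : Real.exp (2 * p.1) * p.2.2 ≤ E := by
        have h3 : p.1 < s0 + 1 := hp.1
        have h4 : p.2.2 < 2 * y0 := hp.2.2.2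
        have h5 : Real.exp (2 * p.1) ≤ Real.exp (2 * (s0 + 1)) :=
          Real.exp_le_exp.2 (by linarith)
        exact mul_le_mul h5 h4.le hyp.le (Real.exp_pos _).le
      have hb : b1 g p.1 (p.2.1 + k + r) p.2.2 = 0 := by
        refine KC_b1_zero g hg _ _ _ hyp ?_
        have h3 : E + 1 ≤ |p.2.1 + k + r| := by linarith
        have h4 : (E + 1) ^ 2 ≤ (p.2.1 + k + r) ^ 2 := by
          rw [← sq_abs (p.2.1 + k + r)]
          exact pow_le_pow_left₀ (by linarith) h3 2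
        nlinarith
      rw [hb, mul_zero, add_zero, KC_k1_eq hNO g _ _ _ hx hyp]
      show KC_H g (p.1, 1 / (p.2.1 + k + r), p.2.2) =
        KC_H g (p.1, 1 / (k : ℝ) / (1 + 1 / (k : ℝ) * (p.2.1 + r)), p.2.2)
      congr 3
      have h6 : 1 + 1 / (k : ℝ) * (p.2.1 + r) = (p.2.1 + k + r) / k := by
        field_simp
        ring
      rw [h6]
      field_simp
    have hB : Bk g p.1 p.2.1 p.2.2 x0 k = M (1 / (k : ℝ), p) := by
      unfold Bk c5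
      beta_reduce
      rw [key (1 / 5) (by norm_num) (by norm_num), key (2 / 5) (by norm_num) (by norm_num),
        key (3 / 5) (by norm_num) (by norm_num), key (4 / 5) (by norm_num) (by norm_num)]
    show Bk g p.1 p.2.1 p.2.2 x0 k = _
    rw [hB, hGM _ hτ p hp]
    congr 1
    field_simp

end SF
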