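import Mathlib
import Pool.Agent.helper68.SF.SpecS

/-!
Project SF (MP_d52931_gt), block ss, module LB: lower bounds for the lengths and node counts.
-/

set_option autoImplicit false

namespace SF

open Pool.Agent.helper72.Sq

theorem LB_adm : ∀ (w : List Bool) (P : Tri), Adm P → Adm (desc w P) := by
  intro w
  induction w with
  | nil => intro P h; exact h
  | cons b w ih =>
    intro P h
    cases b
    · exact ih _ h.R
    · exact ih _ h.L

theorem LB_fst : ∀ (w : List Bool) (P : Tri),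
    (desc w P).1 = P.1 ∨ ∃ w' : List Bool, (desc w P).1 = (desc w' P).2.2 := by
  intro w
  induction w with
  | nil => intro P; left; rfl
  | cons b w ih =>
    intro P
    cases b
    · right
      rcases ih (Rm P) with h | ⟨w', h⟩
      · exact ⟨[], h⟩
      · exact ⟨false :: w', h⟩
    · rcases ih (Lm P) with h | ⟨w', h⟩
      · left; exact h
      · right; exact ⟨true :: w', h⟩

theorem LB_snd : ∀ (w : List Bool) (P : Tri),
    (desc w P).2.1 = P.2.1 ∨ ∃ w' : List Bool, (desc w P).2.1 = (desc w' P).2.2 := by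
  intro w
  induction w with
  | nil => intro P; left; rfl
  | cons b w ih =>
    intro P
    cases b
    · rcases ih (Rm P) with h | ⟨w', h⟩
      · left; exact h
      · right; exact ⟨false :: w', h⟩
    · right
      rcases ih (Lm P) with h | ⟨w', h⟩
      · exact ⟨[], h⟩
      · exact ⟨true :: w', h⟩

theorem LB (hZ : AM.XZ_stmt) (hB : AM.XB_stmt) (hT : AM.TOT_stmt) : LB_stmt := by
  intro P hP
  obtain ⟨C0, hC0⟩ := hB P hP
  obtain ⟨hfin, -, b, K, hb, hK, hcount⟩ := hT P hP
  -- counts of the mediants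
  have hmf : ∀ R : ℝ, {w : List Bool | len (desc w P).2.2 ≤ R}.Finite := fun R =>
    (hZ P R (hfin R)).1
  have hmc : ∀ T : ℝ, 0 ≤ T → ({w : List Bool | len (desc w P).2.2 ≤ T}.ncard : ℝ) ≤
      (b + K + 1) * (1 + T) ^ 2 := by
    intro T hT0
    have h1 : ({w : List Bool | len (desc w P).2.2 ≤ T}.ncard : ℝ) ≤
        ({w : List Bool | len (desc w P).2.2 ≤ 1 + T}.ncard : ℝ) := by
      exact_mod_cast Set.ncard_le_ncard (fun w (hw : len (desc w P).2.2 ≤ T) =>
        (show len (desc w P).2.2 ≤ 1 + T by linarith)) (hmf (1 + T))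
    have h2 := (abs_le.1 (hZ P (1 + T) (hfin (1 + T))).2).2
    have h3 := (abs_le.1 (hcount (1 + T) (by linarith))).2
    have h4 : (0 : ℝ) ≤ ((CS (Tw P) (1 + T)).ncard : ℝ) := Nat.cast_nonneg _
    have h5 : (1 : ℝ) ≤ 1 + T := by linarith
    nlinarith [mul_nonneg hK (by linarith : (0 : ℝ) ≤ 1 + T), mul_nonneg hK hT0,
      mul_nonneg (mul_nonneg hK hT0) (by linarith : (0 : ℝ) ≤ 1 + T)]
  -- lower bound for the mediants
  obtain ⟨c1, hc1, hc1m⟩ : ∃ c1 : ℝ, 0 < c1 ∧ ∀ w : List Bool, c1 ≤ len (desc w P).2.2 := by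
    rcases Set.eq_empty_or_nonempty {w : List Bool | len (desc w P).2.2 ≤ 1} with he | hne
    · refine ⟨1, one_pos, fun w => ?_⟩
      by_contra hcon
      push Not at hcon
      have : w ∈ {w : List Bool | len (desc w P).2.2 ≤ 1} := hcon.le
      rw [he] at this
      exact this
    · obtain ⟨a, ha, hmin⟩ := Set.exists_min_image _ (fun w => len (desc w P).2.2) (hmf 1) hne
      refine ⟨min (len (desc a P).2.2) 1, lt_min (len_pos (LB_adm a P hP).z2) one_pos, fun w => ?_⟩
      by_cases hw : len (desc w P).2.2 ≤ 1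
      · exact (min_le_left _ _).trans (hmin w hw)
      · push Not at hw
        exact (min_le_right _ _).trans hw.le
  have hC0n : 0 ≤ C0 := (abs_nonneg _).trans (hC0 [])
  have hbK : 0 < b + K + 1 := by linarith
  refine ⟨min c1 (min (len P.1) (len P.2.1)), (b + K + 1) * (1 + C0) ^ 2 + C0,
    lt_min hc1 (lt_min (len_pos hP.x2) (len_pos hP.y2)), by positivity, ?_, ?_, ?_⟩
  · intro w
    refine ⟨?_, ?_, (min_le_left _ _).trans (hc1m w)⟩
    · rcases LB_fst w P with h | ⟨w', h⟩
      · rw [h]; exact (min_le_right _ _).trans (min_le_left _ _)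
      · rw [h]; exact (min_le_left _ _).trans (hc1m w')
    · rcases LB_snd w P with h | ⟨w', h⟩
      · rw [h]; exact (min_le_right _ _).trans (min_le_right _ _)
      · rw [h]; exact (min_le_left _ _).trans (hc1m w')
  · intro w
    have h1 : |LL (desc w P) - len (desc w P).2.2| ≤ C0 := hC0 w
    have h2 : 0 ≤ (b + K + 1) * (1 + C0) ^ 2 := by positivity
    linarith
  · intro T hT0
    have hsub : {w : List Bool | LL (desc w P) ≤ T} ⊆
        {w : List Bool | len (desc w P).2.2 ≤ T + C0} := by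
      intro w (hw : LL (desc w P) ≤ T)
      have h1 : |LL (desc w P) - len (desc w P).2.2| ≤ C0 := hC0 w
      have h2 := (abs_le.1 h1).1
      show len (desc w P).2.2 ≤ T + C0
      linarith
    have h1 : (1 : ℝ) ≤ (1 + C0) ^ 2 := by nlinarith
    refine ⟨(hmf (T + C0)).subset hsub, ?_, hmf T, ?_⟩
    · have h2 : ({w : List Bool | LL (desc w P) ≤ T}.ncard : ℝ) ≤
          ({w : List Bool | len (desc w P).2.2 ≤ T + C0}.ncard : ℝ) := by
        exact_mod_cast Set.ncard_le_ncard hsub (hmf (T + C0))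
      have h3 := hmc (T + C0) (by linarith)
      have h4 : (1 + (T + C0)) ^ 2 ≤ ((1 + C0) * (1 + T)) ^ 2 :=
        pow_le_pow_left₀ (by linarith) (by nlinarith [mul_nonneg hC0n hT0]) 2
      calc ({w : List Bool | LL (desc w P) ≤ T}.ncard : ℝ) ≤
            (b + K + 1) * (1 + (T + C0)) ^ 2 := h2.trans h3
        _ ≤ (b + K + 1) * ((1 + C0) * (1 + T)) ^ 2 := mul_le_mul_of_nonneg_left h4 hbK.le
        _ = (b + K + 1) * (1 + C0) ^ 2 * (1 + T) ^ 2 := by ring
        _ ≤ ((b + K + 1) * (1 + C0) ^ 2 + C0) * (1 + T) ^ 2 :=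
          mul_le_mul_of_nonneg_right (by linarith) (sq_nonneg _)
    · refine (hmc T hT0).trans (mul_le_mul_of_nonneg_right ?_ (sq_nonneg _))
      nlinarith [mul_le_mul_of_nonneg_left h1 hbK.le]

end SF
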